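import Pool.Agent.Helper80.EC_D.Goals

/-!
# Packet DK1
-/

set_option autoImplicit false

open MeasureTheory Filter Topology Set

namespace EC237.PD.PkDK1

theorem summable_sq : Summable fun j : ℤ => 1 / (1 + |(j:ℝ)|) ^ 2 := by
  have h : Summable fun n : ℕ => 1 / (1 + (n:ℝ)) ^ 2 := by
    have h1 := (summable_nat_add_iff 1).2 (Real.summable_one_div_nat_pow.2 (by norm_num : 1 < 2))
    refine h1.congr fun n => ?_
    push_cast
    ring
  refine Summable.of_nat_of_neg ?_ ?_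
  · refine h.congr fun n => ?_
    simp
  · refine h.congr fun n => ?_
    simp

theorem abs_ge1 (j : ℤ) : |(j:ℝ)| ≤ |((1 + 3 * j : ℤ) : ℝ)| := by
  have h : |j| ≤ |1 + 3 * j| := by
    rcases abs_cases j with ⟨h1, h2⟩ | ⟨h1, h2⟩ <;>
      rcases abs_cases (1 + 3 * j) with ⟨h3, h4⟩ | ⟨h3, h4⟩ <;> omega
  exact_mod_cast h

theorem abs_ge2 (j : ℤ) : |(j:ℝ)| ≤ |((-(2 + 3 * j) : ℤ) : ℝ)| := by
  have h : |j| ≤ |-(2 + 3 * j)| := by
    rcases abs_cases j with ⟨h1, h2⟩ | ⟨h1, h2⟩ <;>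
      rcases abs_cases (-(2 + 3 * j)) with ⟨h3, h4⟩ | ⟨h3, h4⟩ <;> omega
  exact_mod_cast h

theorem abs_diff (j : ℤ) :
    |(|((1 + 3 * j : ℤ) : ℝ)| - |((-(2 + 3 * j) : ℤ) : ℝ)|)| ≤ 1 := by
  have h : |(|1 + 3 * j| - |-(2 + 3 * j)|)| ≤ 1 := by
    rcases abs_cases (1 + 3 * j) with ⟨h1, h2⟩ | ⟨h1, h2⟩ <;>
      rcases abs_cases (-(2 + 3 * j)) with ⟨h3, h4⟩ | ⟨h3, h4⟩ <;>
      rw [h1, h3, abs_le] <;> constructor <;> omega
  exact_mod_cast h

theorem thm (h4 : EC237.N4) (h8 : EC237.N8) (hW : G_DW) : EC237.PD.G_DK1 := by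
  intro y hy
  obtain ⟨C, hC, h8'⟩ := h8 y hy
  have hz : ∀ r m : ℤ, (m - r) % 3 ≠ 0 → V y r m = 0 := fun r m h =>
    ((h4 y hy r m 0).2.2.2.2.2.2.2.2.2.2.2 h 0).1
  have hper : ∀ r m : ℤ, V y (r + 6) m = V y r m := fun r m => ((h4 y hy r m 0).2.1 0).1
  have hneg : ∀ r m : ℤ, V y r (-m) = V y (-r) m := fun r m =>
    (h4 y hy r m 0).2.2.2.2.2.2.2.2.2.2.1
  -- the two sums
  have hA : HasSum (fun j : ℤ => V y 1 (1 + 3 * j) - V y 2 (2 + 3 * j)) (Wd y 1 2 1) := by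
    have h1 : HasSum (fun m : ℤ => V y 1 m - V y 2 (1 + m)) (Wd y 1 2 1) :=
      (hW y hy 1 2 1 1 (by norm_num) (by norm_num)).1.hasSum
    have hinj : Function.Injective fun j : ℤ => 1 + 3 * j := fun a b h => by
      have h' : 1 + 3 * a = 1 + 3 * b := h
      omega
    have h2 := (hinj.hasSum_iff (f := fun m : ℤ => V y 1 m - V y 2 (1 + m)) (a := Wd y 1 2 1)
      (by
        intro m hm
        have h3 : (m - 1) % 3 ≠ 0 := by
          intro h
          apply hm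
          exact ⟨(m - 1) / 3, by show 1 + 3 * ((m - 1) / 3) = m; omega⟩
        show V y 1 m - V y 2 (1 + m) = 0
        rw [hz 1 m h3, hz 2 (1 + m) (by omega), sub_zero])).2 h1
    have h3 : (fun j : ℤ => V y 1 (1 + 3 * j) - V y 2 (2 + 3 * j)) =
        (fun m : ℤ => V y 1 m - V y 2 (1 + m)) ∘ fun j : ℤ => 1 + 3 * j := by
      funext j
      show _ = V y 1 (1 + 3 * j) - V y 2 (1 + (1 + 3 * j))
      rw [show 1 + (1 + 3 * j) = 2 + 3 * j by ring]
    rw [h3]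
    exact h2
  have hB : HasSum (fun j : ℤ => V y 3 (3 * j) - V y 4 (1 + 3 * j)) (Wd y 3 4 1) := by
    have h1 : HasSum (fun m : ℤ => V y 3 m - V y 4 (1 + m)) (Wd y 3 4 1) :=
      (hW y hy 3 4 1 1 (by norm_num) (by norm_num)).1.hasSum
    have hinj : Function.Injective fun j : ℤ => 3 * j := fun a b h => by
      have h' : 3 * a = 3 * b := h
      omega
    have h2 := (hinj.hasSum_iff (f := fun m : ℤ => V y 3 m - V y 4 (1 + m)) (a := Wd y 3 4 1)
      (by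
        intro m hm
        have h3 : m % 3 ≠ 0 := by
          intro h
          apply hm
          exact ⟨m / 3, by show 3 * (m / 3) = m; omega⟩
        show V y 3 m - V y 4 (1 + m) = 0
        rw [hz 3 m (by omega), hz 4 (1 + m) (by omega), sub_zero])).2 h1
    have h3 : (fun j : ℤ => V y 3 (3 * j) - V y 4 (1 + 3 * j)) =
        (fun m : ℤ => V y 3 m - V y 4 (1 + m)) ∘ fun j : ℤ => 3 * j := by
      funext j
      rfl
    rw [h3]
    exact h2
  -- the antisymmetric family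
  obtain ⟨U, hU⟩ : ∃ U : ℤ → ℂ, U = fun j => V y 4 (1 + 3 * j) - V y 2 (2 + 3 * j) := ⟨_, rfl⟩
  have hV2 : ∀ j : ℤ, V y 2 (2 + 3 * j) = V y 4 (1 + 3 * (-1 - j)) := by
    intro j
    rw [show 1 + 3 * (-1 - j) = -(2 + 3 * j) by ring, hneg 4 (2 + 3 * j),
      ← hper (-4) (2 + 3 * j)]
    norm_num
  have hUs : Summable U := by
    refine Summable.of_norm_bounded (g := fun j : ℤ => 2 * C * (1 / (1 + |(j:ℝ)|) ^ 2))
      (summable_sq.mul_left _) fun j => ?_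
    have h1 := h8' 4 (1 + 3 * j) 0 4 (-(2 + 3 * j)) 0 (by norm_num) (by norm_num) (by omega)
      (by omega)
    have h2 : U j = hS y 4 (1 + 3 * j) 0 0 - hS y 4 (-(2 + 3 * j)) 0 0 := by
      rw [hU]
      show V y 4 (1 + 3 * j) - V y 2 (2 + 3 * j) = _
      rw [hV2, show 1 + 3 * (-1 - j) = -(2 + 3 * j) by ring]
      rfl
    rw [h2]
    refine h1.trans ?_
    have a1 := abs_ge1 j
    have a2 := abs_ge2 j
    have a3 := abs_diff j
    have a0 := abs_nonneg (j:ℝ)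
    have h5 : (1 + |(j:ℝ)|) ^ 2 ≤
        (1 + |((1 + 3 * j : ℤ) : ℝ)|) * (1 + |((-(2 + 3 * j) : ℤ) : ℝ)|) := by
      rw [sq]
      exact mul_le_mul (by linarith) (by linarith) (by linarith) (by linarith)
    rw [mul_one_div]
    exact div_le_div₀ (by linarith) (by nlinarith) (by positivity) h5
  have hU0 : ∑' j, U j = 0 := by
    have h1 : ∑' j, U ((Equiv.subLeft (-1 : ℤ)) j) = ∑' j, U j :=
      (Equiv.subLeft (-1 : ℤ)).tsum_eq U
    have h2 : ∀ j, U ((Equiv.subLeft (-1 : ℤ)) j) = -U j := by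
      intro j
      rw [hU]
      show V y 4 (1 + 3 * (-1 - j)) - V y 2 (2 + 3 * (-1 - j)) =
        -(V y 4 (1 + 3 * j) - V y 2 (2 + 3 * j))
      rw [hV2 (-1 - j), hV2 j, show -1 - (-1 - j) = j by ring]
      ring
    simp_rw [h2] at h1
    rw [tsum_neg] at h1
    linear_combination (-1 / 2 : ℂ) * h1
  have hf := (hA.sub hB).sub hUs.hasSum
  rw [hU0, sub_zero] at hf
  have h3 : (fun j : ℤ => V y 1 (1 + 3 * j) - V y 3 (3 * j)) = fun j : ℤ =>
      V y 1 (1 + 3 * j) - V y 2 (2 + 3 * j) - (V y 3 (3 * j) - V y 4 (1 + 3 * j)) - U j := by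
    funext j
    rw [hU]
    ring
  rw [h3]
  exact hf

end EC237.PD.PkDK1
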